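import Mathlib

/-! Project DM (MP_8bcfe8_an, positive definite matrices): the optimal velocity constant of
`u'' + c u' + A u = f` is nonincreasing in the damping `c`.

For a diagonal `A = diag a` the velocity kernel is `diag (g_i)`, where `y'' + c y' + a y = 0`,
`y(0) = 0`, `g = y'`, `g(0) = 1`.  With `N c s r = (1/2) e^{-cs/2} (1 + 1_{r<s} (rc/2 - 1) e^{cr/2})
≥ 0`, `∫ N c s r ds = r/2`, one has `g_{c'} = g_c - δ g_c*g_c + δ² g_{c'}*g_c*g_c` and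
`g_c*g_c (s) = (s/2) g_c(s) - ∫ N c s r g_c(r) dr`; so `∫ ‖G_{c'} v‖ ≤ ∫ ‖G_c v‖ + C δ²`. -/

set_option autoImplicit false

namespace Pool.Agent.X83.DM

open MeasureTheory Set Filter Topology Real

/-- `y'' + c y' + a y = 0`, `y(0) = 0`, `y'(0) = 1`, `g = y'` -/
structure Ker (a c : ℝ) (y g : ℝ → ℝ) : Prop where
  y0 : y 0 = 0
  g0 : g 0 = 1
  dy : ∀ t, HasDerivAt y (g t) t
  dg : ∀ t, HasDerivAt g (-(c * g t) - a * y t) t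

/-- (EX) existence (matrix exponential or closed form) and self-consistency -/
def S_EX : Prop := ∀ a c : ℝ, ∃ y g : ℝ → ℝ, Ker a c y g

/-- (DEC) uniform exponential decay (Lyapunov function `g² + a y² + ε y g`) -/
def S_DEC : Prop := ∀ a c1 c2 : ℝ, 0 < a → 0 < c1 → c1 ≤ c2 →
  ∃ M η : ℝ, 0 < η ∧ 0 ≤ M ∧ ∀ c ∈ Icc c1 c2, ∀ y g : ℝ → ℝ, Ker a c y g → ∀ t : ℝ, 0 ≤ t →
    |y t| ≤ M * exp (-(η * t)) ∧ |g t| ≤ M * exp (-(η * t))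

/-- (RES) `F r = g' r g (s - r) - a y' r y (s - r)` has `F' = -(c' - c) g' r g (s - r)` -/
def S_RES : Prop := ∀ (a c c' : ℝ) (y g y' g' : ℝ → ℝ), Ker a c y g → Ker a c' y' g' → ∀ s : ℝ,
  g' s - g s = -(c' - c) * ∫ r in (0 : ℝ)..s, g' r * g (s - r)

/-- (ID) the formula for `g * g`. Hint: `g (s-r) = g s g (-r) - a y s y (-r)`,
`y (s-r) = (g s + c y s) y (-r) + y s g (-r)`; `s g = g*g - a y*y`, `s y = 2 y*g + c y*y`;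
`R = (s/2) g - g*g` satisfies `R' + (c/2) R = (1/2) (s c/2 - 1) g`, `R 0 = 0`. -/
def S_ID : Prop := ∀ (a c : ℝ) (y g : ℝ → ℝ), Ker a c y g → ∀ s : ℝ,
  ∫ r in (0 : ℝ)..s, g r * g (s - r) =
    s / 2 * g s - 1 / 2 * ∫ r in (0 : ℝ)..s, (r * c / 2 - 1) * exp (-(c * (s - r) / 2)) * g r

/-- the positive kernel -/
noncomputable def N (c s r : ℝ) : ℝ :=
  1 / 2 * exp (-(c * s / 2)) * (1 + if r < s then (r * c / 2 - 1) * exp (c * r / 2) else 0)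

/-- (NK) positivity of `N` and Tonelli's theorem -/
def S_NK : Prop := ∀ c : ℝ, 0 < c →
  (∀ s r : ℝ, 0 ≤ r → 0 ≤ N c s r) ∧
  ∀ (h : ℝ → ℝ) (M η : ℝ), Continuous h → 0 < η → (∀ r, 0 ≤ r → 0 ≤ h r ∧ h r ≤ M * exp (-(η * r))) →
    (∀ s, 0 ≤ s → IntegrableOn (fun r => N c s r * h r) (Ioi 0)) ∧
    IntegrableOn (fun s => ∫ r in Ioi (0 : ℝ), N c s r * h r) (Ioi 0) ∧
    ∫ s in Ioi (0 : ℝ), (∫ r in Ioi (0 : ℝ), N c s r * h r) = ∫ r in Ioi (0 : ℝ), r / 2 * h r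

/-- (REP) the second order expansion, given (DEC), (RES), (ID) (and `∫ g = 0` since `y → 0`) -/
def S_REP : Prop := S_DEC → S_RES → S_ID → ∀ a c1 c2 : ℝ, 0 < a → 0 < c1 → c1 ≤ c2 →
  ∃ M η : ℝ, 0 < η ∧ 0 ≤ M ∧ ∀ c ∈ Icc c1 c2, ∀ c' ∈ Icc c1 c2, ∀ y g y' g' : ℝ → ℝ,
    Ker a c y g → Ker a c' y' g' → ∃ ρ : ℝ → ℝ, Continuous ρ ∧
      (∀ s, 0 ≤ s → |ρ s| ≤ M * exp (-(η * s))) ∧
      ∀ s, 0 ≤ s → g' s = (1 - (c' - c) * s / 2) * g s +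
        (c' - c) * (∫ r in Ioi (0 : ℝ), N c s r * g r) + (c' - c) ^ 2 * ρ s

/-- the vector `G v` at time `s` -/
noncomputable def vec {d : ℕ} (g : Fin d → ℝ → ℝ) (v : Fin d → ℝ) (s : ℝ) :
    EuclideanSpace ℝ (Fin d) := WithLp.toLp 2 fun i => g i s * v i

/-- the `L¹` norm of `G v` -/
noncomputable def Phi {d : ℕ} (g : Fin d → ℝ → ℝ) (v : Fin d → ℝ) : ℝ :=
  ∫ s in Ioi (0 : ℝ), ‖vec g v s‖

/-- (STEP) -/
def S_STEP : Prop := S_DEC → S_NK → S_REP → S_RES → S_ID → ∀ (d : ℕ) (a v : Fin d → ℝ)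
  (c1 c2 : ℝ), (∀ i, 0 < a i) → 0 < c1 → c1 ≤ c2 → ∃ C : ℝ, ∀ c ∈ Icc c1 c2, ∀ c' ∈ Icc c1 c2,
    c ≤ c' → ∀ y g y' g' : Fin d → ℝ → ℝ, (∀ i, Ker (a i) c (y i) (g i)) →
    (∀ i, Ker (a i) c' (y' i) (g' i)) → Phi g' v ≤ Phi g v + C * (c' - c) ^ 2

/-- (TEL) telescoping -/
def S_TEL : Prop := ∀ (F : ℝ → ℝ) (c1 c2 C : ℝ), c1 ≤ c2 →
  (∀ c ∈ Icc c1 c2, ∀ c' ∈ Icc c1 c2, c ≤ c' → F c' ≤ F c + C * (c' - c) ^ 2) → F c2 ≤ F c1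

/-- `K` bounds the velocity: for the solutions (by the variation of constants formula) of
`u'' + c u' + diag a u = f`, `u 0 = u0`, `u' 0 = u1`, one has `limsup ‖u'‖ ≤ K L` whenever `f` is
locally integrable with `‖f t‖ ≤ L` for all large `t` -/
def Good {d : ℕ} (a : Fin d → ℝ) (y g : Fin d → ℝ → ℝ) (K : ℝ) : Prop :=
  ∀ (u0 u1 : Fin d → ℝ) (f : ℝ → EuclideanSpace ℝ (Fin d)) (L : ℝ),
    LocallyIntegrable f → (∀ᶠ t in atTop, ‖f t‖ ≤ L) → ∀ ε : ℝ, 0 < ε → ∀ᶠ t in atTop,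
      ‖(WithLp.toLp 2 fun i => -(a i * y i t * u0 i) + g i t * u1 i +
        ∫ s in (0 : ℝ)..t, g i (t - s) * f s i : EuclideanSpace ℝ (Fin d))‖ ≤ K * L + ε

/-- (UP) duality, upper bound -/
def S_UP : Prop := S_DEC → ∀ (d : ℕ) (a : Fin d → ℝ) (y g : Fin d → ℝ → ℝ) (c K : ℝ), 0 < c →
  (∀ i, 0 < a i) → (∀ i, Ker (a i) c (y i) (g i)) →
  (∀ v : Fin d → ℝ, Phi g v ≤ K * ‖(WithLp.toLp 2 v : EuclideanSpace ℝ (Fin d))‖) → Good a y g K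

/-- (LOW) duality, lower bound: test with `u0 = u1 = 0` and the function `f` equal to
`G(nP - s) v / ‖G(nP - s) v‖` on `(nP - T, nP)`, `P` large, pair with `v` at the times `nP` -/
def S_LOW : Prop := S_DEC → ∀ (d : ℕ) (a : Fin d → ℝ) (y g : Fin d → ℝ → ℝ) (c K : ℝ), 0 < c →
  (∀ i, 0 < a i) → (∀ i, Ker (a i) c (y i) (g i)) → Good a y g K →
  ∀ v : Fin d → ℝ, Phi g v ≤ K * ‖(WithLp.toLp 2 v : EuclideanSpace ℝ (Fin d))‖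

end Pool.Agent.X83.DM
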