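import Pool.Agent.X83.DM.Stm

set_option autoImplicit false

namespace Pool.Agent.X83.DM

open MeasureTheory Set Filter Topology Real

theorem t_TEL : S_TEL := by
  intro F c1 c2 C h12 h
  have key : ∀ n : ℕ, 0 < n → F c2 ≤ F c1 + C * (c2 - c1) ^ 2 / n := by
    intro n hn
    have hn' : (0:ℝ) < n := by exact_mod_cast hn
    set δ : ℝ := (c2 - c1) / n with hδ
    have hd : 0 ≤ δ := div_nonneg (by linarith) hn'.le
    have e1 : (n:ℝ) * δ = c2 - c1 := by rw [hδ]; field_simp
    have hk : ∀ k : ℕ, k ≤ n → F (c1 + k * δ) ≤ F c1 + k * (C * δ ^ 2) := by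
      intro k
      induction k with
      | zero => intro _; simp
      | succ k ih =>
        intro hk
        have ih' := ih (by omega)
        have hkn : ((k:ℝ) + 1) ≤ n := by exact_mod_cast hk
        have hk0 : (0:ℝ) ≤ k := Nat.cast_nonneg k
        have h1 : 0 ≤ (k:ℝ) * δ := mul_nonneg hk0 hd
        have h2 : ((k:ℝ) + 1) * δ ≤ n * δ := mul_le_mul_of_nonneg_right hkn hd
        have := h (c1 + k * δ) ⟨by linarith, by nlinarith⟩ (c1 + (k+1) * δ)
          ⟨by nlinarith, by nlinarith⟩ (by nlinarith)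
        push_cast
        have e2 : c1 + (k+1) * δ - (c1 + k * δ) = δ := by ring
        rw [e2] at this
        linarith
    have := hk n le_rfl
    rw [e1] at this
    have e3 : c1 + (c2 - c1) = c2 := by ring
    rw [e3] at this
    have e4 : (n:ℝ) * (C * δ ^ 2) = C * (c2 - c1) ^ 2 / n := by
      rw [hδ]; field_simp
    linarith
  have hlim : Tendsto (fun n : ℕ => F c1 + C * (c2 - c1) ^ 2 / n) atTop (𝓝 (F c1 + 0)) :=
    tendsto_const_nhds.add (tendsto_const_div_atTop_nhds_zero_nat _)
  rw [add_zero] at hlim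
  exact ge_of_tendsto hlim (eventually_atTop.2 ⟨1, fun n hn => key n hn⟩)

end Pool.Agent.X83.DM
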