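import Pool.Agent.X83.DM.Stm

set_option autoImplicit false

namespace Pool.Agent.X83.DM

open MeasureTheory Set Filter Topology Real

theorem norm_toLp_le {d : ℕ} (w : Fin d → ℝ) :
    ‖(WithLp.toLp 2 w : EuclideanSpace ℝ (Fin d))‖ ≤ ∑ i, |w i| := by
  rw [EuclideanSpace.norm_eq]
  apply Real.sqrt_le_iff.2
  refine ⟨Finset.sum_nonneg fun i _ => abs_nonneg _, ?_⟩
  simpa using Finset.sum_sq_le_sq_sum_of_nonneg (s := Finset.univ) (f := fun i => |w i|)
    (fun i _ => abs_nonneg _)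

theorem exists_min_pos {d : ℕ} (η : Fin d → ℝ) (h : ∀ i, 0 < η i) :
    ∃ η0 : ℝ, 0 < η0 ∧ ∀ i, η0 ≤ η i := by
  cases isEmpty_or_nonempty (Fin d) with
  | inl he => exact ⟨1, one_pos, fun i => (IsEmpty.false i).elim⟩
  | inr hne =>
    obtain ⟨i0, hi0⟩ := Finite.exists_min η
    exact ⟨η i0, h i0, hi0⟩

theorem cont_vec {d : ℕ} (g : Fin d → ℝ → ℝ) (v : Fin d → ℝ) (hg : ∀ i, Continuous (g i)) :
    Continuous (vec g v) := by
  unfold vec
  exact (PiLp.continuous_toLp 2 _).comp (continuous_pi fun i => (hg i).mul continuous_const)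

theorem int_exp {η : ℝ} (hη : 0 < η) : IntegrableOn (fun s : ℝ => exp (-(η * s))) (Ioi 0) := by
  have := exp_neg_integrableOn_Ioi 0 hη
  simpa [neg_mul] using this

theorem int_pow_exp {η : ℝ} (hη : 0 < η) :
    IntegrableOn (fun s : ℝ => s ^ 2 * exp (-(η * s))) (Ioi 0) := by
  have h2 : 0 < η / 2 := by linarith
  refine Integrable.mono' ((int_exp h2).const_mul (8 / η ^ 2))
    (Continuous.aestronglyMeasurable (by fun_prop)) ?_
  refine (ae_restrict_iff' measurableSet_Ioi).2 (Eventually.of_forall fun s hs => ?_)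
  have hs0 : (0:ℝ) < s := hs
  rw [Real.norm_eq_abs, abs_of_nonneg (by positivity)]
  have h3 := Real.pow_div_factorial_le_exp (x := η / 2 * s) (by positivity) 2
  have h4 : exp (-(η * s)) = exp (-(η / 2 * s)) * exp (-(η / 2 * s)) := by
    rw [← Real.exp_add]; congr 1; ring
  have h5 : exp (η / 2 * s) * exp (-(η / 2 * s)) = 1 := by
    rw [← Real.exp_add]; simp
  have h6 : s ^ 2 ≤ 8 / η ^ 2 * exp (η / 2 * s) := by
    have : (Nat.factorial 2 : ℝ) = 2 := by norm_num [Nat.factorial]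
    rw [this] at h3
    have h7 : s ^ 2 = 8 / η ^ 2 * ((η / 2 * s) ^ 2 / 2) := by field_simp; ring
    rw [h7]
    exact mul_le_mul_of_nonneg_left h3 (by positivity)
  calc s ^ 2 * exp (-(η * s)) ≤ (8 / η ^ 2 * exp (η / 2 * s)) * exp (-(η * s)) :=
        mul_le_mul_of_nonneg_right h6 (exp_pos _).le
    _ = 8 / η ^ 2 * exp (-(η / 2 * s)) * (exp (η / 2 * s) * exp (-(η / 2 * s))) := by
        rw [h4]; ring
    _ = 8 / η ^ 2 * exp (-(η / 2 * s)) := by rw [h5, mul_one]

theorem t_STEP : S_STEP := by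
  intro hDEC hNK hREP hRES hID d a v c1 c2 ha hc1 hc12
  have hD := fun i => hDEC (a i) c1 c2 (ha i) hc1 hc12
  choose M η hη hM hD using hD
  have hR := fun i => hREP hDEC hRES hID (a i) c1 c2 (ha i) hc1 hc12
  choose M' η' hη' hM' hR using hR
  obtain ⟨η0, h0, hη0⟩ := exists_min_pos η hη
  obtain ⟨η1, h1, hη1⟩ := exists_min_pos η' hη'
  set B : ℝ := ∑ i, M i * |v i| with hB
  set B' : ℝ := ∑ i, M' i * |v i| with hB'
  have hB0 : 0 ≤ B := Finset.sum_nonneg fun i _ => mul_nonneg (hM i) (abs_nonneg _)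
  have hB'0 : 0 ≤ B' := Finset.sum_nonneg fun i _ => mul_nonneg (hM' i) (abs_nonneg _)
  refine ⟨(∫ s in Ioi (0:ℝ), 1 / 2 * B * (s ^ 2 * exp (-(η0 * s)))) +
    ∫ s in Ioi (0:ℝ), B' * exp (-(η1 * s)), ?_⟩
  intro c hc c' hc' hcc y g y' g' hK hK'
  set δ := c' - c with hδ
  have hδ0 : 0 ≤ δ := by linarith
  have hρ := fun i => hR i c hc c' hc' (y i) (g i) (y' i) (g' i) (hK i) (hK' i)
  choose ρ hρc hρb hρe using hρ
  have gc : ∀ i, Continuous (g i) := fun i =>
    continuous_iff_continuousAt.2 fun t => ((hK i).dg t).continuousAt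
  have gc' : ∀ i, Continuous (g' i) := fun i =>
    continuous_iff_continuousAt.2 fun t => ((hK' i).dg t).continuousAt
  have vc := cont_vec g v gc
  have vc' := cont_vec g' v gc'
  have rc := cont_vec ρ v hρc
  have hc0 : 0 < c := lt_of_lt_of_le hc1 hc.1
  -- bounds
  have hvb : ∀ s, 0 ≤ s → ‖vec g v s‖ ≤ B * exp (-(η0 * s)) := by
    intro s hs
    refine (norm_toLp_le _).trans ?_
    rw [hB, Finset.sum_mul]
    refine Finset.sum_le_sum fun i _ => ?_
    rw [abs_mul]
    have := (hD i c hc (y i) (g i) (hK i) s hs).2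
    have h2 : exp (-(η i * s)) ≤ exp (-(η0 * s)) :=
      Real.exp_le_exp.2 (neg_le_neg (mul_le_mul_of_nonneg_right (hη0 i) hs))
    calc |g i s| * |v i| ≤ (M i * exp (-(η i * s))) * |v i| :=
          mul_le_mul_of_nonneg_right this (abs_nonneg _)
      _ ≤ (M i * exp (-(η0 * s))) * |v i| :=
          mul_le_mul_of_nonneg_right (mul_le_mul_of_nonneg_left h2 (hM i)) (abs_nonneg _)
      _ = _ := by ring
  have hvb' : ∀ s, 0 ≤ s → ‖vec g' v s‖ ≤ B * exp (-(η0 * s)) := by
    intro s hs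
    refine (norm_toLp_le _).trans ?_
    rw [hB, Finset.sum_mul]
    refine Finset.sum_le_sum fun i _ => ?_
    rw [abs_mul]
    have := (hD i c' hc' (y' i) (g' i) (hK' i) s hs).2
    have h2 : exp (-(η i * s)) ≤ exp (-(η0 * s)) :=
      Real.exp_le_exp.2 (neg_le_neg (mul_le_mul_of_nonneg_right (hη0 i) hs))
    calc |g' i s| * |v i| ≤ (M i * exp (-(η i * s))) * |v i| :=
          mul_le_mul_of_nonneg_right this (abs_nonneg _)
      _ ≤ (M i * exp (-(η0 * s))) * |v i| :=
          mul_le_mul_of_nonneg_right (mul_le_mul_of_nonneg_left h2 (hM i)) (abs_nonneg _)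
      _ = _ := by ring
  have hrb : ∀ s, 0 ≤ s → ‖vec ρ v s‖ ≤ B' * exp (-(η1 * s)) := by
    intro s hs
    refine (norm_toLp_le _).trans ?_
    rw [hB', Finset.sum_mul]
    refine Finset.sum_le_sum fun i _ => ?_
    rw [abs_mul]
    have := hρb i s hs
    have h2 : exp (-(η' i * s)) ≤ exp (-(η1 * s)) :=
      Real.exp_le_exp.2 (neg_le_neg (mul_le_mul_of_nonneg_right (hη1 i) hs))
    calc |ρ i s| * |v i| ≤ (M' i * exp (-(η' i * s))) * |v i| :=
          mul_le_mul_of_nonneg_right this (abs_nonneg _)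
      _ ≤ (M' i * exp (-(η1 * s))) * |v i| :=
          mul_le_mul_of_nonneg_right (mul_le_mul_of_nonneg_left h2 (hM' i)) (abs_nonneg _)
      _ = _ := by ring
  obtain ⟨hN0, hNK'⟩ := hNK c hc0
  obtain ⟨hI1, hI2, hI3⟩ := hNK' (fun r => ‖vec g v r‖) B η0 vc.norm h0
    (fun r hr => ⟨norm_nonneg _, hvb r hr⟩)
  -- pointwise inequality
  have hpt : ∀ s, 0 < s → ‖vec g' v s‖ ≤ (1 - δ * s / 2 + δ ^ 2 * s ^ 2 / 2) * ‖vec g v s‖ +
      δ * (∫ r in Ioi (0:ℝ), N c s r * ‖vec g v r‖) + δ ^ 2 * (B' * exp (-(η1 * s))) := by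
    intro s hs
    have hNm : Measurable (fun r => N c s r) := by
      unfold N
      refine Measurable.mul measurable_const (Measurable.add measurable_const ?_)
      exact Measurable.ite measurableSet_Iio (by fun_prop) measurable_const
    have hEi : IntegrableOn (fun r => N c s r • vec g v r) (Ioi 0) := by
      refine Integrable.mono' (hI1 s hs.le)
        ((hNm.aestronglyMeasurable).smul vc.aestronglyMeasurable) ?_
      refine (ae_restrict_iff' measurableSet_Ioi).2 (Eventually.of_forall fun r hr => ?_)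
      rw [norm_smul, Real.norm_eq_abs, abs_of_nonneg (hN0 s r (le_of_lt hr))]
    have hvec : vec g' v s = (1 - δ * s / 2) • vec g v s +
        δ • (∫ r in Ioi (0:ℝ), N c s r • vec g v r) + δ ^ 2 • vec ρ v s := by
      ext i
      have hproj : (∫ r in Ioi (0:ℝ), N c s r • vec g v r) i =
          (∫ r in Ioi (0:ℝ), N c s r * g i r) * v i := by
        have := ((EuclideanSpace.proj i : EuclideanSpace ℝ (Fin d) →L[ℝ] ℝ)).integral_comp_comm hEi
        rw [← integral_mul_const]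
        calc (∫ r in Ioi (0:ℝ), N c s r • vec g v r) i
            = ∫ r in Ioi (0:ℝ), (EuclideanSpace.proj i : EuclideanSpace ℝ (Fin d) →L[ℝ] ℝ)
                (N c s r • vec g v r) := by rw [this]; rfl
          _ = _ := by
              refine integral_congr_ae (Eventually.of_forall fun r => ?_)
              simp [vec, mul_assoc]
      simp only [PiLp.add_apply, PiLp.smul_apply, smul_eq_mul, hproj]
      simp only [vec]
      rw [hρe i s hs.le]
      ring
    have hx : |1 - δ * s / 2| ≤ 1 - δ * s / 2 + δ ^ 2 * s ^ 2 / 2 := by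
      have hx0 : 0 ≤ δ * s / 2 := by positivity
      rw [abs_le]
      constructor <;> nlinarith [sq_nonneg (δ * s / 2 - 1), sq_nonneg (δ * s / 2)]
    rw [hvec]
    refine (norm_add_le _ _).trans (add_le_add ((norm_add_le _ _).trans (add_le_add ?_ ?_)) ?_)
    · rw [norm_smul, Real.norm_eq_abs]
      exact mul_le_mul_of_nonneg_right hx (norm_nonneg _)
    · rw [norm_smul, Real.norm_eq_abs, abs_of_nonneg hδ0]
      refine mul_le_mul_of_nonneg_left ?_ hδ0
      refine (norm_integral_le_integral_norm _).trans (le_of_eq ?_)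
      refine setIntegral_congr_fun measurableSet_Ioi fun r hr => ?_
      simp only [norm_smul, Real.norm_eq_abs]
      rw [abs_of_nonneg (hN0 s r (le_of_lt hr))]
    · rw [norm_smul, Real.norm_eq_abs, abs_of_nonneg (sq_nonneg δ)]
      exact mul_le_mul_of_nonneg_left (hrb s hs.le) (sq_nonneg δ)
  -- integrability
  have iexp0 := int_exp h0
  have iexp1 := int_exp h1
  have ip0 := int_pow_exp h0
  have iV : IntegrableOn (fun s => ‖vec g v s‖) (Ioi 0) := by
    refine Integrable.mono' (iexp0.const_mul B) vc.norm.aestronglyMeasurable ?_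
    refine (ae_restrict_iff' measurableSet_Ioi).2 (Eventually.of_forall fun s hs => ?_)
    rw [norm_norm]
    exact hvb s (le_of_lt hs)
  have iV' : IntegrableOn (fun s => ‖vec g' v s‖) (Ioi 0) := by
    refine Integrable.mono' (iexp0.const_mul B) vc'.norm.aestronglyMeasurable ?_
    refine (ae_restrict_iff' measurableSet_Ioi).2 (Eventually.of_forall fun s hs => ?_)
    rw [norm_norm]
    exact hvb' s (le_of_lt hs)
  have iV2 : IntegrableOn (fun s => s ^ 2 * ‖vec g v s‖) (Ioi 0) := by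
    refine Integrable.mono' (ip0.const_mul B)
      (Continuous.aestronglyMeasurable ((continuous_pow 2).mul vc.norm)) ?_
    refine (ae_restrict_iff' measurableSet_Ioi).2 (Eventually.of_forall fun s hs => ?_)
    have hs0 : (0:ℝ) < s := hs
    rw [Real.norm_eq_abs, abs_of_nonneg (by positivity)]
    calc s ^ 2 * ‖vec g v s‖ ≤ s ^ 2 * (B * exp (-(η0 * s))) :=
          mul_le_mul_of_nonneg_left (hvb s hs0.le) (sq_nonneg s)
      _ = _ := by ring
  have iV1 : IntegrableOn (fun s => s / 2 * ‖vec g v s‖) (Ioi 0) := by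
    refine Integrable.mono' (iV.add iV2)
      (Continuous.aestronglyMeasurable ((continuous_id.div_const 2).mul vc.norm)) ?_
    refine (ae_restrict_iff' measurableSet_Ioi).2 (Eventually.of_forall fun s hs => ?_)
    have hs0 : (0:ℝ) < s := hs
    rw [Real.norm_eq_abs, abs_of_nonneg (by positivity)]
    simp only [Pi.add_apply]
    nlinarith [norm_nonneg (vec g v s), sq_nonneg (s - 1), mul_nonneg (sq_nonneg (s-1)) (norm_nonneg (vec g v s))]
  have iRHS : IntegrableOn (fun s => ‖vec g v s‖ - δ * (s / 2 * ‖vec g v s‖) +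
      δ ^ 2 / 2 * (s ^ 2 * ‖vec g v s‖) + δ * (∫ r in Ioi (0:ℝ), N c s r * ‖vec g v r‖) +
      δ ^ 2 * (B' * exp (-(η1 * s)))) (Ioi 0) :=
    (((iV.sub (iV1.const_mul δ)).add (iV2.const_mul (δ ^ 2 / 2))).add (hI2.const_mul δ)).add
      ((iexp1.const_mul B').const_mul (δ ^ 2))
  have hle : Phi g' v ≤ ∫ s in Ioi (0:ℝ), (‖vec g v s‖ - δ * (s / 2 * ‖vec g v s‖) +
      δ ^ 2 / 2 * (s ^ 2 * ‖vec g v s‖) + δ * (∫ r in Ioi (0:ℝ), N c s r * ‖vec g v r‖) +
      δ ^ 2 * (B' * exp (-(η1 * s)))) := by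
    refine setIntegral_mono_on iV' iRHS measurableSet_Ioi fun s hs => ?_
    have := hpt s hs
    linarith
  have heq : ∫ s in Ioi (0:ℝ), (‖vec g v s‖ - δ * (s / 2 * ‖vec g v s‖) +
      δ ^ 2 / 2 * (s ^ 2 * ‖vec g v s‖) + δ * (∫ r in Ioi (0:ℝ), N c s r * ‖vec g v r‖) +
      δ ^ 2 * (B' * exp (-(η1 * s)))) = Phi g v - δ * (∫ s in Ioi (0:ℝ), s / 2 * ‖vec g v s‖) +
      δ ^ 2 / 2 * (∫ s in Ioi (0:ℝ), s ^ 2 * ‖vec g v s‖) +
      δ * (∫ s in Ioi (0:ℝ), (∫ r in Ioi (0:ℝ), N c s r * ‖vec g v r‖)) +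
      δ ^ 2 * ∫ s in Ioi (0:ℝ), B' * exp (-(η1 * s)) := by
    have J1 : Integrable (fun s => ‖vec g v s‖ - δ * (s / 2 * ‖vec g v s‖))
        (volume.restrict (Ioi 0)) := iV.sub (iV1.const_mul δ)
    have J2' : Integrable (fun s => δ ^ 2 / 2 * (s ^ 2 * ‖vec g v s‖))
        (volume.restrict (Ioi 0)) := iV2.const_mul (δ ^ 2 / 2)
    have J2 : Integrable (fun s => ‖vec g v s‖ - δ * (s / 2 * ‖vec g v s‖) +
        δ ^ 2 / 2 * (s ^ 2 * ‖vec g v s‖)) (volume.restrict (Ioi 0)) := J1.add J2'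
    have J3' : Integrable (fun s => δ * (∫ r in Ioi (0:ℝ), N c s r * ‖vec g v r‖))
        (volume.restrict (Ioi 0)) := hI2.const_mul δ
    have J3 : Integrable (fun s => ‖vec g v s‖ - δ * (s / 2 * ‖vec g v s‖) +
        δ ^ 2 / 2 * (s ^ 2 * ‖vec g v s‖) + δ * (∫ r in Ioi (0:ℝ), N c s r * ‖vec g v r‖))
        (volume.restrict (Ioi 0)) := J2.add J3'
    have J4' : Integrable (fun s => δ ^ 2 * (B' * exp (-(η1 * s))))
        (volume.restrict (Ioi 0)) := (iexp1.const_mul B').const_mul (δ ^ 2)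
    rw [integral_add J3 J4', integral_add J2 J3', integral_add J1 J2',
      integral_sub iV (iV1.const_mul δ), integral_const_mul, integral_const_mul,
      integral_const_mul, integral_const_mul]
    rfl
  have hlast : ∫ s in Ioi (0:ℝ), s ^ 2 * ‖vec g v s‖ ≤
      2 * ∫ s in Ioi (0:ℝ), 1 / 2 * B * (s ^ 2 * exp (-(η0 * s))) := by
    rw [← integral_const_mul]
    refine setIntegral_mono_on iV2 ((ip0.const_mul (1 / 2 * B)).const_mul 2) measurableSet_Ioi
      fun s hs => ?_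
    have := mul_le_mul_of_nonneg_left (hvb s (le_of_lt hs)) (sq_nonneg s)
    calc s ^ 2 * ‖vec g v s‖ ≤ s ^ 2 * (B * exp (-(η0 * s))) := this
      _ = 2 * (1 / 2 * B * (s ^ 2 * exp (-(η0 * s)))) := by ring
  rw [heq, hI3] at hle
  have : δ ^ 2 / 2 * (∫ s in Ioi (0:ℝ), s ^ 2 * ‖vec g v s‖) ≤
      δ ^ 2 / 2 * (2 * ∫ s in Ioi (0:ℝ), 1 / 2 * B * (s ^ 2 * exp (-(η0 * s)))) :=
    mul_le_mul_of_nonneg_left hlast (by positivity)
  linarith

end Pool.Agent.X83.DM
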