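import Pool.Agent.X83.DM.Stm
import Pool.Agent.X83.DM.Tel
import Pool.Agent.X83.DM.Step
import Pool.Agent.X191.DM.Dec
import Pool.Agent.X28.DM.ID
import Pool.Agent.X284.DM.NK
import Pool.Agent.X289.DM.REP
import Pool.Agent.X131.DM.RES
import Pool.Agent.H329.DM.EX

set_option autoImplicit false

namespace Pool.Agent.X83.DM

open MeasureTheory Set Filter Topology Real

theorem phi_anti {d : ℕ} (a v : Fin d → ℝ) (c1 c2 : ℝ) (ha : ∀ i, 0 < a i) (hc1 : 0 < c1)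
    (hc : c1 ≤ c2) (y g y' g' : Fin d → ℝ → ℝ) (hK : ∀ i, Ker (a i) c1 (y i) (g i))
    (hK' : ∀ i, Ker (a i) c2 (y' i) (g' i)) : Phi g' v ≤ Phi g v := by
  obtain ⟨C, hC⟩ := t_STEP Pool.Agent.X191.DM.t_DEC Pool.Agent.X284.DM.t_NK Pool.Agent.X289.DM.t
    Pool.Agent.X131.DM.RES.t Pool.Agent.X28.DM.ID.t d a v c1 c2 ha hc1 hc
  have hex : ∀ i, ∀ c : ℝ, ∃ yg : (ℝ → ℝ) × (ℝ → ℝ), Ker (a i) c yg.1 yg.2 := fun i c => by
    obtain ⟨y, g, h⟩ := Pool.Agent.H329.DM.t_EX (a i) c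
    exact ⟨(y, g), h⟩
  choose yg hyg using hex
  have hF := t_TEL (fun c => Phi (fun i => (yg i c).2) v) c1 c2 C hc (fun c h c' h' hcc =>
    hC c h c' h' hcc _ _ _ _ (fun i => hyg i c) (fun i => hyg i c'))
  have m1 : c1 ∈ Icc c1 c2 := ⟨le_rfl, hc⟩
  have m2 : c2 ∈ Icc c1 c2 := ⟨hc, le_rfl⟩
  have e1 := hC c1 m1 c1 m1 le_rfl _ _ _ _ hK (fun i => hyg i c1)
  have e2 := hC c2 m2 c2 m2 le_rfl _ _ _ _ (fun i => hyg i c2) hK'
  simp only [sub_self, ne_eq, OfNat.ofNat_ne_zero, not_false_eq_true, zero_pow, mul_zero,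
    add_zero] at e1 e2
  exact e2.trans (hF.trans e1)

end Pool.Agent.X83.DM
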